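import Mathlib
import Pool.Agent.Helper27.Mag.Three

/-!
# Integrality of the normalised `(5 k + 1)` sums with ratio `-192`

We prove that for every `n ≥ 2` the number
`a n = (1 / (n (2 n + 1) C(2n, n))) ∑_{k < n} (5 k + 1) C(2k, k)^2 C(3k, k) (-192)^(n-1-k)`
is an integer if `2 n + 1` is not a power of three, and that `3 * a n` is an integer not divisible
by three if `2 n + 1` is a power of three.
-/

set_option autoImplicit false

namespace Pool.Agent.Results.MP_6a8d80_nt.SunRatioIntegrality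

open Finset Pool.Agent.Helper27.Mag

/-- The rational number `a n` of the problem. -/
def a (n : ℕ) : ℚ :=
  1 / ((n : ℚ) * (2 * n + 1) * (Nat.choose (2 * n) n : ℚ)) *
    ∑ k ∈ range n, (5 * (k : ℚ) + 1) * (Nat.choose (2 * k) k : ℚ) ^ 2 *
      (Nat.choose (3 * k) k : ℚ) * (-192) ^ (n - 1 - k)

/-- The integer numerator. -/
def S (n : ℕ) : ℤ :=
  ∑ k ∈ range n, (5 * (k : ℤ) + 1) * ((Nat.centralBinom k : ℤ) * (fSeq k : ℤ)) *
    (-192) ^ (n - 1 - k)

lemma S_succ (n : ℕ) : S (n + 1) = -192 * S n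
    + (5 * (n : ℤ) + 1) * ((Nat.centralBinom n : ℤ) * (fSeq n : ℤ)) := by
  unfold S
  rw [sum_range_succ, mul_sum]
  congr 1
  · apply sum_congr rfl
    intro k hk
    rw [mem_range] at hk
    have : n + 1 - 1 - k = (n - 1 - k) + 1 := by omega
    rw [this, pow_succ]
    ring
  · simp

lemma S_eq (n : ℕ) : 576 * S n = n * (Nat.centralBinom n : ℤ)
    * (9 * (fSeq n : ℤ) + (2 * n + 1) * lSeq n) := by
  induction n with
  | zero => simp [S]
  | succ n ih =>
    rw [S_succ]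
    have h1 := lSeq_succ n
    have h2 := centralBinom_succ' n
    push_cast
    set c1 : ℤ := (Nat.centralBinom (n + 1) : ℤ)
    set c0 : ℤ := (Nat.centralBinom n : ℤ)
    linear_combination -192 * ih - (9 * (fSeq (n + 1) : ℤ) + (2 * (n + 1) + 1) * lSeq (n + 1)) * h2
      - (2 * (2 * (n : ℤ) + 1) * c0) * h1

lemma dvd_choose (n : ℕ) (hn : n ≠ 0) : 2 * n + 1 ∣ Nat.choose (3 * n) n := by
  obtain ⟨k, rfl⟩ := Nat.exists_eq_succ_of_ne_zero hn
  have h := Nat.choose_succ_right_eq (3 * (k + 1)) k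
  have h2 : 3 * (k + 1) - k = 2 * (k + 1) + 1 := by omega
  rw [h2] at h
  have hcop : Nat.Coprime (2 * (k + 1) + 1) (k + 1) := by
    rw [Nat.coprime_mul_right_add_left]
    exact Nat.coprime_one_left _
  apply hcop.dvd_of_dvd_mul_right
  rw [Nat.succ_eq_add_one, h]
  exact dvd_mul_left _ _

lemma a_eq (n : ℕ) : a n = (S n : ℚ) / ((n : ℚ) * (2 * n + 1) * (Nat.centralBinom n : ℚ)) := by
  unfold a S
  rw [one_div, inv_mul_eq_div]
  push_cast
  congr 1
  apply sum_congr rfl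
  intro k _
  unfold fSeq Nat.centralBinom
  push_cast
  ring

lemma cb_pos (n : ℕ) : (0 : ℚ) < (Nat.centralBinom n : ℚ) := by
  exact_mod_cast Nat.centralBinom_pos n

/-- `576 a_n = 9 g_n + L_n`. -/
lemma a_rel (n : ℕ) (hn : n ≠ 0) : ∃ g : ℤ, 576 * a n = ((9 * g + lSeq n : ℤ) : ℚ) := by
  obtain ⟨c, hc⟩ := dvd_choose n hn
  refine ⟨(c : ℤ) * Nat.centralBinom n, ?_⟩
  have hF : (fSeq n : ℚ) = (2 * n + 1) * (c * (Nat.centralBinom n : ℚ)) := by
    unfold fSeq
    rw [hc]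
    push_cast
    ring
  have h := S_eq n
  have h' : (576 : ℚ) * (S n : ℚ) = n * (Nat.centralBinom n : ℚ)
    * (9 * (fSeq n : ℚ) + (2 * n + 1) * (lSeq n : ℚ)) := by exact_mod_cast h
  rw [hF] at h'
  have hb := cb_pos n
  have hn' : (n : ℚ) ≠ 0 := by exact_mod_cast hn
  have h2 : (2 * (n : ℚ) + 1) ≠ 0 := by positivity
  rw [a_eq, ← mul_div_assoc, h']
  push_cast
  field_simp

lemma a_succ (n : ℕ) (hn : n ≠ 0) : ∃ z : ℤ, (2 * (n : ℚ) + 3) * a (n + 1) = -96 * n * a n + z := by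
  obtain ⟨c, hc⟩ := dvd_choose n hn
  obtain ⟨h, hh⟩ := Nat.two_dvd_centralBinom_of_one_le (Nat.one_le_iff_ne_zero.2 hn)
  refine ⟨(5 * n + 1) * (h * c), ?_⟩
  have hS : (S (n + 1) : ℚ) = -192 * S n
    + (5 * (n : ℚ) + 1) * ((Nat.centralBinom n : ℚ) * (fSeq n : ℚ)) := by
    exact_mod_cast S_succ n
  have hF : (fSeq n : ℚ) = (2 * n + 1) * (c * (Nat.centralBinom n : ℚ)) := by
    unfold fSeq
    rw [hc]
    push_cast
    ring
  have hb := cb_pos n
  have hb1 := cb_pos (n + 1)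
  have hn' : (n : ℚ) ≠ 0 := by exact_mod_cast hn
  have h2 : (2 * (n : ℚ) + 1) ≠ 0 := by positivity
  have h3 : (2 * ((n : ℚ) + 1) + 1) ≠ 0 := by positivity
  have h4 : ((n : ℚ) + 1) ≠ 0 := by positivity
  have hc2 : ((n : ℚ) + 1) * (Nat.centralBinom (n + 1) : ℚ)
      = 2 * (2 * n + 1) * (Nat.centralBinom n : ℚ) := by exact_mod_cast centralBinom_succ' n
  have hh' : (Nat.centralBinom n : ℚ) = 2 * h := by rw [hh]; push_cast; ring
  have e1 : (n + 1 : ℚ) * (2 * (n + 1) + 1) * (Nat.centralBinom (n + 1) : ℚ)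
      = 2 * (2 * n + 1) * (2 * n + 3) * (Nat.centralBinom n : ℚ) := by
    linear_combination (2 * ((n : ℚ) + 1) + 1) * hc2
  rw [a_eq, a_eq]
  push_cast
  rw [e1, hS, hF]
  have h5 : (2 * (n : ℚ) + 3) ≠ 0 := by positivity
  have hh0 : (h : ℚ) ≠ 0 := by
    intro h0
    rw [h0, mul_zero] at hh'
    exact hb.ne' hh'
  rw [hh']
  field_simp
  ring

lemma a_two : a 2 = -2 := by
  unfold a
  rw [sum_range_succ, sum_range_succ, sum_range_zero]
  norm_num [Nat.choose]

lemma a_odd (n : ℕ) (hn : 2 ≤ n) : ∃ d : ℤ, Odd d ∧ ∃ z : ℤ, (d : ℚ) * a n = z := by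
  induction n, hn using Nat.le_induction with
  | base => exact ⟨1, odd_one, -2, by rw [a_two]; norm_num⟩
  | succ n hn ih =>
    obtain ⟨d, hd, z, hz⟩ := ih
    obtain ⟨y, hy⟩ := a_succ n (by omega)
    refine ⟨(2 * n + 3) * d, ?_, -96 * n * z + d * y, ?_⟩
    · apply Odd.mul _ hd
      exact ⟨n + 1, by ring⟩
    · push_cast
      linear_combination (d : ℚ) * hy - 96 * (n : ℚ) * hz

/-- An integer multiple by a power of two and an odd multiple give an integer. -/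
lemma int_of (x : ℚ) (d z y : ℤ) (hd : Odd d) (hz : (d : ℚ) * x = z) (hy : 64 * x = y) :
    ∃ w : ℤ, x = w := by
  have hcop : IsCoprime d (64 : ℤ) := by
    have h2 : IsCoprime d (2 : ℤ) := by
      obtain ⟨k, rfl⟩ := hd
      exact ⟨1, -k, by ring⟩
    have := h2.pow_right (n := 6)
    norm_num at this
    exact this
  obtain ⟨p, q, hpq⟩ := hcop
  refine ⟨p * z + q * y, ?_⟩
  have hpq' : (p : ℚ) * d + q * 64 = 1 := by exact_mod_cast hpq
  push_cast
  rw [← hz, ← hy]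
  linear_combination (-x) * hpq'

/-- For every `n ≥ 2`: if `2 n + 1` is not a power of three then `a n` is an integer; if `2 n + 1`
is a power of three then `3 * a n` is an integer which is not divisible by three. -/
theorem result : ∀ n : ℕ, 2 ≤ n →
    ((¬ ∃ m : ℕ, 2 * n + 1 = 3 ^ m) → ∃ z : ℤ, a n = z) ∧
    ((∃ m : ℕ, 2 * n + 1 = 3 ^ m) → ∃ z : ℤ, 3 * a n = z ∧ ¬ (3 : ℤ) ∣ z) := by
  intro n hn
  obtain ⟨d, hd, z, hz⟩ := a_odd n hn
  obtain ⟨g, hg⟩ := a_rel n (by omega)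
  constructor
  · intro h
    obtain ⟨c, hc⟩ := nine_dvd_l n h
    apply int_of (a n) d z (g + c) hd hz
    rw [hc] at hg
    push_cast at hg ⊢
    linear_combination (1 / 9 : ℚ) * hg
  · rintro ⟨m, hm⟩
    obtain ⟨c, hc, hc3⟩ := l_of_pow n m hm (by omega)
    rw [hc] at hg
    have h64 : 64 * (3 * a n) = ((3 * g + c : ℤ) : ℚ) := by
      push_cast at hg ⊢
      linear_combination (1 / 3 : ℚ) * hg
    obtain ⟨w, hw⟩ := int_of (3 * a n) d (3 * z) (3 * g + c) hd
      (by push_cast; linear_combination 3 * hz) h64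
    refine ⟨w, hw, ?_⟩
    intro h3
    apply hc3
    rw [hw] at h64
    have h5 : 64 * w = 3 * g + c := by exact_mod_cast h64
    obtain ⟨v, rfl⟩ := h3
    exact ⟨64 * v - g, by linarith⟩

end Pool.Agent.Results.MP_6a8d80_nt.SunRatioIntegrality
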